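import Pool.Agent.MP_2b113a_an.H33.Defs

/-!
Strict fundamental domains of discrete subgroups, and finiteness of the index of a lattice in a
discrete subgroup that contains it.
-/

namespace Pool.Agent.MP_2b113a_an.H18

open MeasureTheory Filter Topology Set
open scoped ENNReal Pointwise
open Pool.Agent.MP_2b113a_an.H33

section Top

variable {G : Type} [Group G] [TopologicalSpace G] [IsTopologicalGroup G]

theorem exists_nhd (A : Subgroup G) [DiscreteTopology A] :
    ∃ U : Set G, IsOpen U ∧ (1 : G) ∈ U ∧ ∀ u ∈ U, ∀ v ∈ U, u * v⁻¹ ∈ A → u = v := by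
  have h1 : IsOpen ({1} : Set A) := isOpen_discrete _
  obtain ⟨W, hW, hWA⟩ := isOpen_induced_iff.1 h1
  have h1W : (1 : G) ∈ W := by
    have : (1 : A) ∈ ((↑) : A → G) ⁻¹' W := by rw [hWA]; rfl
    exact this
  obtain ⟨V, hV, hVW⟩ := exists_nhds_split_inv (hW.mem_nhds h1W)
  refine ⟨interior V, isOpen_interior, mem_interior_iff_mem_nhds.2 hV, fun u hu v hv huv => ?_⟩
  have h2 : u / v ∈ W := hVW u (interior_subset hu) v (interior_subset hv)
  rw [div_eq_mul_inv] at h2
  have h3 : (⟨u * v⁻¹, huv⟩ : A) ∈ ((↑) : A → G) ⁻¹' W := h2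
  rw [hWA] at h3
  have h4 : u * v⁻¹ = 1 := congrArg Subtype.val h3
  exact mul_inv_eq_one.1 h4

theorem exists_cover [SecondCountableTopology G] (A : Subgroup G) [DiscreteTopology A] :
    ∃ W : ℕ → Set G, (∀ n, IsOpen (W n)) ∧ (∀ y, ∃ n, y ∈ W n) ∧
      ∀ n, ∀ u ∈ W n, ∀ v ∈ W n, u * v⁻¹ ∈ A → u = v := by
  obtain ⟨U, hU, h1, hA⟩ := exists_nhd A
  obtain ⟨g, hg⟩ := TopologicalSpace.exists_dense_seq G
  refine ⟨fun n => {y | y * (g n)⁻¹ ∈ U}, fun n => hU.preimage (by fun_prop), fun y => ?_,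
    fun n u hu v hv huv => ?_⟩
  · have ho : IsOpen {z : G | y * z⁻¹ ∈ U} := hU.preimage (by fun_prop)
    obtain ⟨n, hn⟩ := hg.exists_mem_open ho ⟨y, by simpa using h1⟩
    exact ⟨n, hn⟩
  · have h := hA _ hu _ hv (by simpa [mul_assoc] using huv)
    exact mul_right_cancel h

theorem countable_of_discrete [SecondCountableTopology G] (A : Subgroup G) [DiscreteTopology A] :
    Countable A := by
  obtain ⟨W, -, hc, hA⟩ := exists_cover A
  choose n hn using hc
  refine Function.Injective.countable (f := fun a : A => n a) fun a b hab => ?_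
  have hab' : n a = n b := hab
  refine Subtype.ext (hA (n a) _ (hn a) _ (hab' ▸ hn b) ?_)
  exact A.mul_mem a.2 (A.inv_mem b.2)

theorem exists_cocycle [SecondCountableTopology G] [MeasurableSpace G] [BorelSpace G]
    (A : Subgroup G) [DiscreteTopology A] :
    ∃ c : G → A, (∀ γ, MeasurableSet {y | c y = γ}) ∧ ∀ (γ : A) (y : G), c (γ * y) = γ * c y := by
  classical
  obtain ⟨W, hW, hc, hA⟩ := exists_cover A
  have hex : ∀ y : G, ∃ n, ∃ a : A, (a : G)⁻¹ * y ∈ W n := fun y => by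
    obtain ⟨n, hn⟩ := hc y
    exact ⟨n, 1, by simpa using hn⟩
  have hsp : ∀ y : G, ∃ a : A, (a : G)⁻¹ * y ∈ W (Nat.find (hex y)) := fun y => Nat.find_spec (hex y)
  choose c hcW using hsp
  have huniq : ∀ (y : G) (a : A), (a : G)⁻¹ * y ∈ W (Nat.find (hex y)) → c y = a := by
    intro y a ha
    have h := hA _ _ (hcW y) _ ha (by
      have : ((c y : A) : G)⁻¹ * y * ((a : G)⁻¹ * y)⁻¹ = ((c y : A) : G)⁻¹ * a := by group
      rw [this]
      exact A.mul_mem (A.inv_mem (c y).2) a.2)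
    exact Subtype.ext (inv_injective (mul_right_cancel h))
  have hfind : ∀ (γ : A) (y : G), Nat.find (hex (γ * y)) = Nat.find (hex y) := by
    intro γ y
    refine Nat.find_congr' ?_
    intro n
    constructor
    · rintro ⟨a, ha⟩
      exact ⟨γ⁻¹ * a, by simpa [mul_assoc] using ha⟩
    · rintro ⟨a, ha⟩
      exact ⟨γ * a, by simpa [mul_assoc] using ha⟩
  refine ⟨c, fun γ => ?_, fun γ y => ?_⟩
  · have hm : Measurable fun y => Nat.find (hex y) := by
      refine measurable_find hex fun n => ?_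
      have : {y : G | ∃ a : A, (a : G)⁻¹ * y ∈ W n} = ⋃ a : A, {y | (a : G)⁻¹ * y ∈ W n} := by
        ext y; simp
      rw [this]
      exact (isOpen_iUnion fun a => (hW n).preimage (by fun_prop)).measurableSet
    have : {y | c y = γ} =
        ⋃ n : ℕ, ((fun y => Nat.find (hex y)) ⁻¹' {n} ∩ {y | (γ : G)⁻¹ * y ∈ W n}) := by
      ext y
      simp only [mem_ofPred_eq, mem_iUnion, mem_inter_iff, mem_preimage, mem_singleton_iff]
      constructor
      · rintro rfl
        exact ⟨_, rfl, hcW y⟩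
      · rintro ⟨n, rfl, h⟩
        exact huniq y γ h
    rw [this]
    refine MeasurableSet.iUnion fun n => (hm (measurableSet_singleton n)).inter ?_
    exact ((hW n).preimage (by fun_prop : Continuous fun y : G => (γ : G)⁻¹ * y)).measurableSet
  · refine huniq _ _ ?_
    rw [hfind]
    simpa [mul_assoc] using hcW y

end Top

section Meas

variable {G : Type} [Group G] [MeasurableSpace G] (m : Measure G)

theorem isFD {A : Subgroup G} (c : G → A) (hm : MeasurableSet {y | c y = 1})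
    (hc : ∀ (γ : A) (y : G), c (γ * y) = γ * c y) : IsFundamentalDomain A {y | c y = 1} m := by
  refine IsFundamentalDomain.mk' hm.nullMeasurableSet fun x => ⟨(c x)⁻¹, ?_, fun γ hγ => ?_⟩
  · show c (((c x)⁻¹ : A) * x) = 1
    rw [hc]; simp
  · have h : c (γ * x) = 1 := hγ
    rw [hc] at h
    exact eq_inv_of_mul_eq_one_left h

theorem bij_coset {H : Type} [Group H] (S : Subgroup H) :
    Function.Bijective fun p : (H ⧸ S) × S => p.1.out * (p.2 : H) := by
  constructor
  · rintro ⟨q, δ⟩ ⟨q', δ'⟩ h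
    have h' : q.out * (δ : H) = q'.out * (δ' : H) := h
    have hq : q = q' := by
      have h1 := congrArg (QuotientGroup.mk (s := S)) h'
      rwa [QuotientGroup.mk_mul_of_mem _ δ.2, QuotientGroup.mk_mul_of_mem _ δ'.2,
        QuotientGroup.out_eq', QuotientGroup.out_eq'] at h1
    subst hq
    exact Prod.ext rfl (Subtype.ext (mul_left_cancel h'))
  · intro x
    obtain ⟨δ, hδ⟩ := QuotientGroup.mk_out_eq_mul S x
    refine ⟨((x : H ⧸ S), δ⁻¹), ?_⟩
    show (QuotientGroup.mk x : H ⧸ S).out * ((δ⁻¹ : S) : H) = x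
    rw [hδ]; simp

theorem measure_eq_index [MeasurableMul G] [m.IsMulLeftInvariant] {A B : Subgroup G} [Countable A]
    [Countable B] (hAB : A ≤ B) {DA DB : Set G} (hA : IsFundamentalDomain A DA m)
    (hB : IsFundamentalDomain B DB m) : m DA = ∑' _ : B ⧸ A.subgroupOf B, m DB := by
  rw [hB.measure_eq_tsum DA, ← (Equiv.ofBijective _ (bij_coset (A.subgroupOf B))).tsum_eq,
    ENNReal.tsum_prod']
  refine tsum_congr fun q => ?_
  have h1 : m DB = m (((q.out : B) : G)⁻¹ • DB) := (measure_smul m _ _).symm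
  rw [h1, hA.measure_eq_tsum' (((q.out : B) : G)⁻¹ • DB),
    ← (Subgroup.subgroupOfEquivOfLe hAB).toEquiv.tsum_eq]
  refine tsum_congr fun δ => ?_
  rw [← measure_smul m ((q.out : B) : G) (((q.out : B) : G)⁻¹ • DB ∩ _), smul_set_inter,
    smul_inv_smul, inter_comm]
  congr 2
  show ((q.out * (δ : B) : B) : G) • DA = ((q.out : B) : G) • ((δ : B) : G) • DA
  rw [Subgroup.coe_mul, mul_smul]

end Meas

theorem latt : LatStmt := by
  intro G _ _ _ _ _ _ _ _ m _ Γ Γ₀ _ D hD hfin hle hidx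
  have : DiscreteTopology Γ₀ :=
    DiscreteTopology.of_subset (s := (Γ : Set G)) (t := (Γ₀ : Set G)) inferInstance hle
  have := countable_of_discrete Γ
  have h0 := countable_of_discrete Γ₀
  obtain ⟨c, hc, hmul⟩ := exists_cocycle Γ₀
  have hFD := isFD m c (hc 1) hmul
  have hfin0 : m {y | c y = 1} ≠ ∞ := by
    rw [measure_eq_index m hle hFD hD]
    have : Finite (Γ ⧸ Γ₀.subgroupOf Γ) := Nat.finite_of_card_ne_zero hidx
    have := Fintype.ofFinite (Γ ⧸ Γ₀.subgroupOf Γ)
    rw [tsum_fintype]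
    exact ENNReal.sum_ne_top.2 fun _ _ => hfin
  refine ⟨h0, ⟨⟨c, hc, hmul, hfin0⟩⟩, fun Γ₁ h1 hle1 => ?_⟩
  have := countable_of_discrete Γ₁
  obtain ⟨c₁, hc₁, hmul₁⟩ := exists_cocycle Γ₁
  have hFD₁ := isFD m c₁ (hc₁ 1) hmul₁
  have hne : m {y | c₁ y = 1} ≠ 0 := hFD₁.measure_ne_zero (NeZero.ne m)
  rw [measure_eq_index m hle1 hFD hFD₁] at hfin0
  have hf : Finite (Γ₁ ⧸ Γ₀.subgroupOf Γ₁) := by
    by_contra hinf
    have : Infinite (Γ₁ ⧸ Γ₀.subgroupOf Γ₁) := not_finite_iff_infinite.1 hinf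
    exact hfin0 (ENNReal.tsum_const_eq_top_of_ne_zero hne)
  exact Nat.card_pos.ne'

end Pool.Agent.MP_2b113a_an.H18
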